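import Pool.Agent.H517.B.Fam4
import Pool.Agent.H517.S.Fm
import Pool.Agent.H517.E.Fm4
import Pool.Agent.H517.E.Full
import Pool.Agent.H517.E.Two
import Pool.Agent.H517.S.Rat
import Pool.Agent.H517.D.Gd
import Pool.Agent.H517.D.PKum
import Pool.Agent.H517.D.PFr
import Pool.Agent.H517.D.PEq
import Pool.Agent.H517.D.POne
import Pool.Agent.H517.D.PCnt
import Pool.Agent.H517.D.PRk
import Pool.Agent.H517.E.Inf

/-!
# The split-at-`p` form of Greenberg's generalized conjecture over the fields in `p`-towers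

`p` is a prime number, `K` a number field (totally complex if `p = 2`), `w` a place of `K` above `p` and `S` a finite set
of places of `K` not above `p`, such that the explicit condition `Generates p S w` on the class group and the units of `K` outside `w`
holds. `L` is a field in the towers of `p`-extensions of `K` unramified outside `p` and `S` (or, if `Independent p S w` holds, in the
towers of `p`-extensions of `K(ζ_p)`, `[K(ζ_p) : K] = 2`, unramified outside `p` and `S`). `L'` is any field between `L` and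
the maximal pro-`p` extension of `L` unramified outside `p` and `S`, for instance the compositum `L̃` of all `ℤ_p`-extensions of
`L` (they are unramified outside `p`).

Theorem. The only Galois extension of `L'` with pro-`p` Galois group which is unramified outside `p` and `S` and in which ONE place
above `w` is totally split is `L'` itself. In particular (`L' = L̃`) the module `Gal(K(L̃) / L̃)` of Greenberg's conjecture
is zero, not only pseudo-null, and this is so for the analogous module of every `ℤ_p^r`-extension of `L` and of every `p`-adic Lie extension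
in the maximal pro-`p` extension of `L` unramified outside `p` and `S`.

The condition `Generates` can be verified for many `K` and `S`: see `result`.

Proof. The decomposition group of a place above `w` maps onto the Galois group of the maximal pro-`p` extension of `L`
unramified outside `p` and `S`, and the kernel of the map of the absolute Galois group of `L` onto this group has no nontrivial homomorphism to
`ℤ / p` which vanishes on the inertia groups of the places outside `p` and `S`.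
-/

set_option autoImplicit false
set_option linter.unusedSectionVars false

namespace Pool.Agent.Results.MP_f8d36e_nt.SplitFormInTowers

open NumberField IsDedekindDomain Module

/-! ### The Galois groups, the decomposition groups and the inertia groups -/

/-- An algebraic closure of the number field `K`. -/
abbrev Bar (K : Type) [Field K] : Type := AlgebraicClosure K

/-- The absolute Galois group of `K`. -/
abbrev Gal (K : Type) [Field K] : Type := Bar K ≃ₐ[K] Bar K

/-- The absolute Galois group of the field `L` between `K` and its algebraic closure, a subgroup of the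
absolute Galois group of `K` with the Krull topology. -/
abbrev GalL {K : Type} [Field K] (L : IntermediateField K (Bar K)) : Type := L.fixingSubgroup

section def1

variable {K : Type} [Field K]

/-- The maximal ideal `Q` of the ring of all algebraic integers lies above the prime `v` of `K`. -/
def Above (Q : Ideal (𝓞 (Bar K))) (v : HeightOneSpectrum (𝓞 K)) : Prop :=
  Q.IsMaximal ∧ Q.comap (algebraMap (𝓞 K) (𝓞 (Bar K))) = v.asIdeal

/-- The decomposition group of the maximal ideal `Q` of the ring of all algebraic integers: the `σ`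
such that `σ Q = Q`. -/
def Dec (Q : Ideal (𝓞 (Bar K))) : Set (Gal K) := {σ | ∀ x : 𝓞 (Bar K), x ∈ Q ↔ σ • x ∈ Q}

/-- The inertia group: the `σ` such that `σ x` is congruent to `x` modulo `Q` for all `x`. -/
def Inr (Q : Ideal (𝓞 (Bar K))) : Set (Gal K) := {σ | ∀ x : 𝓞 (Bar K), σ • x - x ∈ Q}

/-- `Q` is a place of the field of all algebraic numbers at which no ramification is allowed: it is a
maximal ideal, not above `p` and not above a prime in `S`. -/
def Outside (p : ℕ) (S : Finset (HeightOneSpectrum (𝓞 K))) (Q : Ideal (𝓞 (Bar K))) : Prop :=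
  Q.IsMaximal ∧ (p : 𝓞 (Bar K)) ∉ Q ∧ ∀ v ∈ S, ¬ Above Q v

/-- `L` is contained in a finite Galois extension `M / K` whose degree is a power of `p` and which is
unramified outside `p` and `S`. -/
def InTower (p : ℕ) (S : Finset (HeightOneSpectrum (𝓞 K))) (L : IntermediateField K (Bar K)) :
    Prop :=
  ∃ M : IntermediateField K (Bar K), L ≤ M ∧ FiniteDimensional K M ∧ IsGalois K M ∧
    (∃ a : ℕ, finrank K M = p ^ a) ∧
    ∀ Q : Ideal (𝓞 (Bar K)), Outside p S Q → ∀ σ ∈ Inr Q, ∀ x ∈ M, σ x = x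

/-- `L` is contained in a finite Galois extension `M / K` of degree `2 · p ^ a` which contains the `p`-th
roots of unity and is unramified outside `p` and `S`. -/
def InTowerTwo (p : ℕ) (S : Finset (HeightOneSpectrum (𝓞 K))) (L : IntermediateField K (Bar K)) :
    Prop :=
  ∃ M : IntermediateField K (Bar K), L ≤ M ∧ FiniteDimensional K M ∧ IsGalois K M ∧
    (∃ a : ℕ, finrank K M = 2 * p ^ a) ∧ (∀ ζ : Bar K, ζ ^ p = 1 → ζ ∈ M) ∧
    ∀ Q : Ideal (𝓞 (Bar K)), Outside p S Q → ∀ σ ∈ Inr Q, ∀ x ∈ M, σ x = x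

/-- The field `L'` contains `L` and is contained in the maximal pro-`p` extension of `L` which is unramified outside `p` and
`S`: every element of `L'` is fixed by an open normal subgroup, of index a power of `p`, of the absolute Galois group of `L`
which contains the elements of the inertia groups of all places at which no ramification is allowed. (So `L' / L` may be infinite; it
need not be Galois.) -/
def InMaximal (p : ℕ) (S : Finset (HeightOneSpectrum (𝓞 K))) (L L' : IntermediateField K (Bar K)) :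
    Prop :=
  L ≤ L' ∧ ∀ x ∈ L', ∃ N : Subgroup (GalL L), N.Normal ∧ IsOpen (N : Set (GalL L)) ∧
    (∃ a : ℕ, N.index = p ^ a) ∧
    (∀ Q : Ideal (𝓞 (Bar K)), Outside p S Q → ∀ σ : GalL L, (σ : Gal K) ∈ Inr Q → σ ∈ N) ∧
    ∀ σ ∈ N, (σ : Gal K) x = x

/-- `M / L'` is a Galois extension with pro-`p` Galois group (every element of `M` lies in a finite Galois extension of `L'` of
degree a power of `p`), unramified outside `p` and `S`, and the place `Q` splits completely in `M / L'`: the decomposition group of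
`Q` in the absolute Galois group of `L'` is contained in that of `M`. -/
structure SplitExtension (p : ℕ) (S : Finset (HeightOneSpectrum (𝓞 K)))
    (L' M : IntermediateField K (Bar K)) (Q : Ideal (𝓞 (Bar K))) : Prop where
  le : L' ≤ M
  galois : ∀ σ : GalL L', ∀ x ∈ M, (σ : Gal K) x ∈ M
  proP : ∀ x ∈ M, ∃ N : Subgroup (GalL L'), N.Normal ∧ IsOpen (N : Set (GalL L')) ∧
    (∃ a : ℕ, N.index = p ^ a) ∧ ∀ σ ∈ N, (σ : Gal K) x = x
  unramified : ∀ Q' : Ideal (𝓞 (Bar K)), Outside p S Q' →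
    ∀ σ : GalL L', (σ : Gal K) ∈ Inr Q' → ∀ x ∈ M, (σ : Gal K) x = x
  split : ∀ σ : GalL L', (σ : Gal K) ∈ Dec Q → ∀ x ∈ M, (σ : Gal K) x = x

end def1

/-! ### The condition on the place above `p` and on `S` -/

section def2

variable {K : Type} [Field K] [NumberField K]

/-- The class of a prime. -/
noncomputable def cl (w : HeightOneSpectrum (𝓞 K)) : ClassGroup (𝓞 K) :=
  ClassGroup.mk0 ⟨w.asIdeal, mem_nonZeroDivisors_iff_ne_zero.2 w.ne_bot⟩

/-- The class group modulo the class of `w` has order prime to `p`. -/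
def ClassCondition (p : ℕ) (w : HeightOneSpectrum (𝓞 K)) : Prop :=
  ∀ C : ClassGroup (𝓞 K), ∃ m k : ℕ, ¬ p ∣ m ∧ C ^ m = cl w ^ k

/-- The place `w` lies above `p`, those in `S` do not, the class group modulo the class of `w` has order
prime to `p` and, `(p) = w ^ e 𝔟` with `𝔟` prime to `w` and `𝔫` the product of the primes in `S`,
the group `(O / 𝔟 ^ 3 𝔫)ˣ` is generated by the `p`-th powers and the images of the elements `α` of
`O` for which `(α)` is a power of `w`. -/
structure Generates (p : ℕ) (S : Finset (HeightOneSpectrum (𝓞 K))) (w : HeightOneSpectrum (𝓞 K)) :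
    Prop where
  above : (p : 𝓞 K) ∈ w.asIdeal
  tame : ∀ v ∈ S, (p : 𝓞 K) ∉ v.asIdeal
  classes : ClassCondition p w
  units : ∃ (e : ℕ) (𝔟 : Ideal (𝓞 K)), w.asIdeal ^ e * 𝔟 = Ideal.span {(p : 𝓞 K)} ∧
    IsCoprime w.asIdeal 𝔟 ∧ ∀ x : 𝓞 K, IsCoprime (Ideal.span {x}) (𝔟 * ∏ v ∈ S, v.asIdeal) →
      ∃ (α y : 𝓞 K) (k : ℕ), Ideal.span {α} = w.asIdeal ^ k ∧
        x * α - y ^ p ∈ 𝔟 ^ 3 * ∏ v ∈ S, v.asIdeal

/-- The natural density, among all primes of `K`, of the set of the primes with the property `P` is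
`a`. -/
def HasDensity (P : HeightOneSpectrum (𝓞 K) → Prop) (a : ℝ) : Prop :=
  Filter.Tendsto (fun N : ℕ => (Nat.card {v : HeightOneSpectrum (𝓞 K) //
      Ideal.absNorm v.asIdeal ≤ N ∧ P v} : ℝ) /
        (Nat.card {v : HeightOneSpectrum (𝓞 K) // Ideal.absNorm v.asIdeal ≤ N} : ℝ))
    Filter.atTop (nhds a)

/-- The order of `(O / I)ˣ` modulo the `p`-th powers. -/
noncomputable def unitsModPowers (p : ℕ) (I : Ideal (𝓞 K)) : ℕ :=
  (powMonoidHom p : (𝓞 K ⧸ I)ˣ →* (𝓞 K ⧸ I)ˣ).range.index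

open Classical in
/-- The order of the group of the elements of `Kˣ` which are units outside `w`, modulo its `p`-th powers,
multiplied by the degree of `K(ζ_p)` over `K`: it is `[K(ζ_p) : K] p ^ (r₁ + r₂ + δ)` where `K` has `r₁`
real and `r₂` complex places and `δ = 1` if `K` contains a primitive `p`-th root of unity, `δ = 0` if
not. -/
noncomputable def kummerDegree (p : ℕ) (K : Type) [Field K] [NumberField K] : ℕ :=
  finrank K (IntermediateField.adjoin K {ζ : Bar K | ζ ^ p = 1}) *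
    p ^ (InfinitePlace.nrRealPlaces K + InfinitePlace.nrComplexPlaces K +
      if ∃ ζ : K, IsPrimitiveRoot ζ p then 1 else 0)

/-- The element `x` of `K` has a `p`-th root which is fixed by the decomposition group of a place above
`w`, that is, it is a `p`-th power in the completion of `K` at `w`. -/
def PowerAt (p : ℕ) (w : HeightOneSpectrum (𝓞 K)) (x : K) : Prop :=
  ∃ (Q : Ideal (𝓞 (Bar K))) (y : Bar K), Above Q w ∧ y ^ p = algebraMap K (Bar K) x ∧
    ∀ σ ∈ Dec Q, σ y = y

/-- The completion at `w` contains no primitive `p`-th root of unity, and the elements of `Kˣ` which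
are `p`-th powers there and whose orders at the primes not above `p` and not in `S` are divisible by `p` are
`p`-th powers in `K`. -/
structure Independent (p : ℕ) (S : Finset (HeightOneSpectrum (𝓞 K))) (w : HeightOneSpectrum (𝓞 K)) :
    Prop where
  roots : ∀ Q : Ideal (𝓞 (Bar K)), Above Q w → ∀ ζ : Bar K, IsPrimitiveRoot ζ p →
    ∃ σ ∈ Dec Q, σ ζ ≠ ζ
  powers : ∀ x : K, x ≠ 0 → (∀ v : HeightOneSpectrum (𝓞 K), (p : 𝓞 K) ∉ v.asIdeal → v ∉ S →
    ∃ t : WithZero (Multiplicative ℤ), v.valuation K x = t ^ p) → PowerAt p w x → ∃ b : K, x = b ^ p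

/-- The fields `L` to which the theorem applies: those in the towers of `p`-extensions over `K` and, if `Independent` holds,
those in the towers of `p`-extensions over `K(ζ_p)`, `[K(ζ_p) : K] = 2`. -/
def Controlled (p : ℕ) (S : Finset (HeightOneSpectrum (𝓞 K))) (w : HeightOneSpectrum (𝓞 K))
    (L : IntermediateField K (Bar K)) : Prop :=
  InTower p S L ∨ (Independent p S w ∧ InTowerTwo p S L)

/-- **No split extensions.** Let `L` be a field in the towers and `L'` a field between `L` and the maximal pro-`p` extension of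
`L` unramified outside `p` and `S`. The only Galois pro-`p` extension of `L'` unramified outside `p` and `S` in which ONE place
`Q` above `w` splits completely is `L'`. -/
def NoSplitExtensions (p : ℕ) (S : Finset (HeightOneSpectrum (𝓞 K))) (w : HeightOneSpectrum (𝓞 K)) :
    Prop :=
  ∀ L : IntermediateField K (Bar K), Controlled p S w L →
  ∀ L' : IntermediateField K (Bar K), InMaximal p S L L' →
  ∀ Q : Ideal (𝓞 (Bar K)), Above Q w →
  ∀ M : IntermediateField K (Bar K), SplitExtension p S L' M Q → M = L'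

/-- There is only one place above `p`. -/
def OnlyPlace (p : ℕ) (w : HeightOneSpectrum (𝓞 K)) : Prop :=
  ∃ e : ℕ, w.asIdeal ^ e = Ideal.span {(p : 𝓞 K)}

/-- The prime `p` is odd, there is exactly one place `w'` above `p` other than `w`, it is unramified of
degree `1`, and there is an `α` such that `(α)` is a power of `w` and `α ^ (p - 1)` is not `1` modulo
`w' ^ 2`. -/
def SecondPlace (p : ℕ) (w : HeightOneSpectrum (𝓞 K)) : Prop :=
  p ≠ 2 ∧ ∃ (w' : HeightOneSpectrum (𝓞 K)) (e : ℕ), w ≠ w' ∧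
    w.asIdeal ^ e * w'.asIdeal = Ideal.span {(p : 𝓞 K)} ∧ Ideal.absNorm w'.asIdeal = p ∧
    ∃ (α : 𝓞 K) (k : ℕ), Ideal.span {α} = w.asIdeal ^ k ∧ α ^ (p - 1) - 1 ∉ w'.asIdeal ^ 2

/-- Both conditions. -/
def Suitable (p : ℕ) (S : Finset (HeightOneSpectrum (𝓞 K))) (w : HeightOneSpectrum (𝓞 K)) : Prop :=
  Generates p S w ∧ Independent p S w

/-- The classical condition for imaginary quadratic fields: `(p) = w w'`, `w ≠ w'`, `p` does not divide the class number
and `α ^ (p - 1)` is not `1` modulo `w' ^ 2` for an `α` for which `(α)` is a power of `w`. -/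
def Gold (p : ℕ) (w w' : HeightOneSpectrum (𝓞 K)) : Prop :=
  w ≠ w' ∧ w.asIdeal * w'.asIdeal = Ideal.span {(p : 𝓞 K)} ∧ ¬ p ∣ classNumber K ∧
    ∃ (α : 𝓞 K) (k : ℕ), Ideal.span {α} = w.asIdeal ^ k ∧ α ^ (p - 1) - 1 ∉ w'.asIdeal ^ 2

open Classical in
/-- **The density of the primes which can be added.** For `(p) = w ^ e 𝔟`, `𝔟` prime to `w`, and `𝔫` the
product of the primes in `S`, the primes `v` such that the condition holds for `S ∪ {v}` have natural
density `1 - #((O / 𝔟 ^ 3 𝔫)ˣ / p-th powers) / ([K(ζ_p) : K] p ^ (r₁ + r₂ + δ))`; the numerator is `p ^ j`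
if `𝔟 = O`, where `j` is the number of the `v ∈ S` with norm `1` modulo `p`. -/
def DensityOfExtensions (p : ℕ) (S : Finset (HeightOneSpectrum (𝓞 K)))
    (w : HeightOneSpectrum (𝓞 K)) : Prop :=
  ∀ (e : ℕ) (𝔟 : Ideal (𝓞 K)), w.asIdeal ^ e * 𝔟 = Ideal.span {(p : 𝓞 K)} →
    IsCoprime w.asIdeal 𝔟 →
    HasDensity (fun v => Generates p (insert v S) w)
      (1 - (unitsModPowers p (𝔟 ^ 3 * ∏ v ∈ S, v.asIdeal) : ℝ) / (kummerDegree p K : ℝ)) ∧
    (𝔟 = ⊤ → unitsModPowers p (𝔟 ^ 3 * ∏ v ∈ S, v.asIdeal) =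
      p ^ (S.filter fun v => p ∣ Ideal.absNorm v.asIdeal - 1).card)

end def2

/-! ### The theorem -/

section proof

open Pool.Agent.NH7.Sch (OO)
open Pool.Agent.H517

variable {K : Type} [Field K] [NumberField K] {p : ℕ} [hp : Fact p.Prime]

theorem prod_le_iff {S : Finset (HeightOneSpectrum (𝓞 K))} (v : HeightOneSpectrum (𝓞 K)) :
    (∏ u ∈ S, u.asIdeal) ≤ v.asIdeal ↔ v ∈ S := by
  constructor
  · intro h
    obtain ⟨u, hu, huv⟩ := (v.isPrime.prod_le).1 h
    have : u = v := HeightOneSpectrum.ext (u.isMaximal.eq_of_le v.isPrime.ne_top huv)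
    exact this ▸ hu
  · intro h
    exact Ideal.le_of_dvd (Finset.dvd_prod_of_mem _ h)

theorem rc (h2 : p = 2 → IsEmpty (K →+* ℝ)) {S : Finset (HeightOneSpectrum (𝓞 K))}
    {w : HeightOneSpectrum (𝓞 K)} (h : Generates p S w) :
    Pool.Agent.H517.S.RC p {v | (p : 𝓞 K) ∈ v.asIdeal ∨ v ∈ S} w := by
  obtain ⟨e, 𝔟, hab, hcop, hun⟩ := h.units
  have h1 := Pool.Agent.H517.S.rc_all h2 hab hcop (𝔫 := ∏ v ∈ S, v.asIdeal) ?_ ?_ h.above
    (B.cls_divisor h.classes) hun
  · simpa only [prod_le_iff] using h1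
  · exact Finset.prod_ne_zero_iff.2 fun v _ => v.ne_bot
  · refine IsCoprime.prod_right fun v hv => ?_
    rw [Ideal.isCoprime_iff_sup_eq]
    have h3 : ¬ Ideal.span {(p : 𝓞 K)} ≤ v.asIdeal := by
      rw [Ideal.span_singleton_le_iff_mem]
      exact h.tame v hv
    exact v.isMaximal.1.2 _ (lt_of_le_of_ne le_sup_right fun h4 => h3 (by
      rw [h4]; exact le_sup_left))

theorem out_IS {S : Finset (HeightOneSpectrum (𝓞 K))} {w : HeightOneSpectrum (𝓞 K)} (σ : Gal K)
    (h : σ ∈ Pool.Agent.H517.S.IS (K := K) {v | (p : 𝓞 K) ∈ v.asIdeal ∨ v ∈ S} w) :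
    ∃ Q, Outside p S Q ∧ σ ∈ Inr Q := by
  obtain ⟨Q, v, hQm, hQv, hvS, hvw, hσ⟩ := h
  refine ⟨Q, ⟨hQm, fun hpQ => hvS (Or.inl ?_), fun u hu hQu => hvS (Or.inr ?_)⟩, hσ⟩
  · rw [← hQv, Ideal.mem_comap, map_natCast]
    exact hpQ
  · have : u = v := HeightOneSpectrum.ext (hQu.2.symm.trans hQv)
    exact this ▸ hu

theorem ind_iff {S : Finset (HeightOneSpectrum (𝓞 K))} {w : HeightOneSpectrum (𝓞 K)}
    (hw : (p : 𝓞 K) ∈ w.asIdeal) :
    Independent p S w ↔ E.Ind p {v | (p : 𝓞 K) ∈ v.asIdeal ∨ v ∈ S} w := by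
  constructor
  · intro h
    refine ⟨fun Q hQ hQw ζ hζ => h.roots Q ⟨hQ, hQw⟩ ζ hζ, fun x hx hv ⟨Q, y, hQ, hQw, hy⟩ =>
      h.powers x hx (fun v hpv hvS => hv v (fun h => h.elim hpv hvS) fun hvw => hpv (hvw ▸ hw))
        ⟨Q, y, ⟨hQ, hQw⟩, hy⟩⟩
  · intro h
    refine ⟨fun Q hQ ζ hζ => h.roots Q hQ.1 hQ.2 ζ hζ, fun x hx hv ⟨Q, y, hQ, hy⟩ =>
      h.powers x hx (fun v hpv _ => hv v (fun h => hpv (Or.inl h)) fun h => hpv (Or.inr h))
        ⟨Q, y, hQ.1, hQ.2, hy⟩⟩

theorem exists_eps : ∃ (ζ : Bar K) (ε : Gal K →* (ZMod p)ˣ), IsPrimitiveRoot ζ p ∧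
    ∀ σ : Gal K, σ ζ = ζ ^ (ε σ : ZMod p).val := by
  obtain ⟨ζ, hζ⟩ : ∃ ζ : Bar K, IsPrimitiveRoot ζ p :=
    HasEnoughRootsOfUnity.exists_primitiveRoot (AlgebraicClosure K) p
  exact ⟨ζ, hζ.autToPow K, hζ, fun σ => (hζ.autToPow_spec K σ).symm⟩

/-- the decomposition group controls the homomorphisms -/
theorem control {S : Finset (HeightOneSpectrum (𝓞 K))} {w : HeightOneSpectrum (𝓞 K)}
    (hrc : Pool.Agent.H517.S.RC p {v | (p : 𝓞 K) ∈ v.asIdeal ∨ v ∈ S} w)
    (hw : (p : 𝓞 K) ∈ w.asIdeal)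
    {L : IntermediateField K (Bar K)} (hL : Controlled p S w L) {Q : Ideal (𝓞 (Bar K))}
    (hQ : Above Q w) :
    E.Ctl (1 : L.fixingSubgroup →* (ZMod p)ˣ)
      {σ : L.fixingSubgroup | (σ : Gal K) ∈
        Pool.Agent.H517.S.IS (K := K) {v | (p : 𝓞 K) ∈ v.asIdeal ∨ v ∈ S} w}
      {σ : L.fixingSubgroup | (σ : Gal K) ∈ Pool.Agent.NH7.Sch.Dec Q} := by
  rcases hL with ⟨M, hLM, hfd, hgal, ⟨a, ha⟩, hur⟩ | ⟨hI, M, hLM, hfd, hgal, ⟨a, ha⟩, hζM, hur⟩
  · refine E.ctl_of_tower fun N hN hNo hNi hIN => ?_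
    exact Pool.Agent.H517.S.no_split hrc (IntermediateField.fixingSubgroup_le hLM) inferInstance
      ⟨a, by rw [← IntermediateField.finrank_eq_fixingSubgroup_index, ha]⟩
      (IntermediateField.fixingSubgroup_isOpen M)
      (by
        intro σ hσ
        obtain ⟨Q', hQ', hσ'⟩ := out_IS σ hσ
        rw [IntermediateField.mem_fixingSubgroup_iff]
        exact hur Q' hQ' σ hσ') hQ.1 hQ.2 N hN hNo hNi fun x hx => hIN x hx
  · obtain ⟨ζ, ε, hζ, hε⟩ := exists_eps (K := K) (p := p)
    exact (E.ctl_quad hrc ((ind_iff hw).1 hI) hζ hε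
      (IntermediateField.fixingSubgroup_le hLM) (M := M.fixingSubgroup) inferInstance
      (fun σ hσ => (IntermediateField.mem_fixingSubgroup_iff M _).1 hσ ζ (hζM ζ hζ.pow_eq_one))
      ⟨a, by rw [← IntermediateField.finrank_eq_fixingSubgroup_index, ha]⟩
      (IntermediateField.fixingSubgroup_isOpen M)
      (by
        intro σ hσ
        obtain ⟨Q', hQ', hσ'⟩ := out_IS σ hσ
        rw [IntermediateField.mem_fixingSubgroup_iff]
        exact hur Q' hQ' σ hσ') hQ.1 hQ.2).2.2.1

theorem isClosed_L {S : Finset (HeightOneSpectrum (𝓞 K))} {w : HeightOneSpectrum (𝓞 K)}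
    {L : IntermediateField K (Bar K)} (hL : Controlled p S w L) :
    IsClosed (L.fixingSubgroup : Set (Gal K)) := by
  obtain ⟨M, hLM, hfd⟩ : ∃ M : IntermediateField K (Bar K), L ≤ M ∧ FiniteDimensional K M := by
    rcases hL with ⟨M, h, hf, -⟩ | ⟨-, M, h, hf, -⟩ <;> exact ⟨M, h, hf⟩
  exact Subgroup.isClosed_of_isOpen _ (Subgroup.isOpen_mono
    (IntermediateField.fixingSubgroup_le hLM) (IntermediateField.fixingSubgroup_isOpen M))

/-! ### Infinite extensions -/

/-- open normal subgroups form a basis -/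
theorem basis {L : IntermediateField K (Bar K)} (U : Set (GalL L)) (hU : U ∈ nhds (1 : GalL L)) :
    ∃ V : Subgroup (GalL L), V.Normal ∧ IsOpen (V : Set (GalL L)) ∧ (V : Set (GalL L)) ⊆ U := by
  rw [mem_nhds_subtype] at hU
  obtain ⟨u, hu, huU⟩ := hU
  obtain ⟨M, hM, hMn, hMu⟩ :=
    (krullTopology_mem_nhds_one_iff_of_normal K (Bar K) u).1 (by simpa using hu)
  have hgal : IsGalois K M := ⟨⟩
  have hn : M.fixingSubgroup.Normal := inferInstance
  refine ⟨M.fixingSubgroup.subgroupOf L.fixingSubgroup, inferInstance, ?_, fun σ hσ => ?_⟩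
  · exact (IntermediateField.fixingSubgroup_isOpen M).preimage continuous_subtype_val
  · exact huU (hMu hσ)

/-- the inertia elements in the absolute Galois group of `L` -/
def II (p : ℕ) (S : Finset (HeightOneSpectrum (𝓞 K))) (w : HeightOneSpectrum (𝓞 K))
    (L : IntermediateField K (Bar K)) : Set (GalL L) :=
  {σ | (σ : Gal K) ∈ Pool.Agent.H517.S.IS (K := K) {v | (p : 𝓞 K) ∈ v.asIdeal ∨ v ∈ S} w}

theorem II_conj {S : Finset (HeightOneSpectrum (𝓞 K))} {w : HeightOneSpectrum (𝓞 K)}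
    {L : IntermediateField K (Bar K)} (g σ : GalL L) (hσ : σ ∈ II p S w L) :
    g * σ * g⁻¹ ∈ II p S w L := Pool.Agent.H517.S.IS_conj (g : Gal K) (σ : Gal K) hσ

/-- every open normal subgroup of `p`-power index is covered by the decomposition group -/
theorem covered {S : Finset (HeightOneSpectrum (𝓞 K))} {w : HeightOneSpectrum (𝓞 K)}
    (hrc : Pool.Agent.H517.S.RC p {v | (p : 𝓞 K) ∈ v.asIdeal ∨ v ∈ S} w)
    (hw : (p : 𝓞 K) ∈ w.asIdeal)
    {L : IntermediateField K (Bar K)} (hL : Controlled p S w L) {Q : Ideal (𝓞 (Bar K))}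
    (hQ : Above Q w) (N : Subgroup (GalL L)) (hN : E.Fam p (II p S w L) N) (g : GalL L) :
    ∃ δ ∈ (Pool.Agent.NH7.Sch.Dec Q : Subgroup (Gal K)).comap L.fixingSubgroup.subtype,
      δ⁻¹ * g ∈ N := by
  have hctl := control hrc hw hL hQ
  refine Pool.Agent.H517.S.dense_of (p := p) (I := II p S w L) ?_ hN.1 hN.2.1 hN.2.2.1 hN.2.2.2 g
  intro h hc hm hI hD
  exact hctl h (E.cy_one.2 ⟨hc, hm⟩) hI hD

/-- the intersection fixes the fields in the maximal extension -/
theorem core_le {S : Finset (HeightOneSpectrum (𝓞 K))} {w : HeightOneSpectrum (𝓞 K)}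
    {L L' : IntermediateField K (Bar K)} (hL' : InMaximal p S L L') :
    E.core p (II p S w L) ≤ L'.fixingSubgroup.subgroupOf L.fixingSubgroup := by
  intro σ hσ
  rw [Subgroup.mem_subgroupOf, IntermediateField.mem_fixingSubgroup_iff]
  intro x hx
  obtain ⟨N, h1, h2, h3, h4, h5⟩ := hL'.2 x hx
  refine h5 σ (E.mem_core.1 hσ N ⟨h1, h2, h3, fun τ hτ => ?_⟩)
  obtain ⟨Q, hQ, hτQ⟩ := out_IS (τ : Gal K) hτ
  exact h4 Q hQ τ hτQ

theorem compact_L {S : Finset (HeightOneSpectrum (𝓞 K))} {w : HeightOneSpectrum (𝓞 K)}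
    {L : IntermediateField K (Bar K)} (hL : Controlled p S w L) : CompactSpace (GalL L) :=
  isCompact_iff_compactSpace.1 (isClosed_L hL).isCompact

theorem closed_dec {L : IntermediateField K (Bar K)} (Q : Ideal (𝓞 (Bar K))) :
    IsClosed (((Pool.Agent.NH7.Sch.Dec Q : Subgroup (Gal K)).comap L.fixingSubgroup.subtype :
      Subgroup (GalL L)) : Set (GalL L)) :=
  (E.isClosed_dec Q).preimage continuous_subtype_val

/-- the homomorphisms -/
theorem ctl_infinite {S : Finset (HeightOneSpectrum (𝓞 K))} {w : HeightOneSpectrum (𝓞 K)}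
    (hrc : Pool.Agent.H517.S.RC p {v | (p : 𝓞 K) ∈ v.asIdeal ∨ v ∈ S} w)
    (hw : (p : 𝓞 K) ∈ w.asIdeal)
    {L L' : IntermediateField K (Bar K)} (hL : Controlled p S w L) (hL' : InMaximal p S L L')
    {Q : Ideal (𝓞 (Bar K))} (hQ : Above Q w) :
    ∀ h : GalL L' → ZMod p, Continuous h → (∀ σ τ, h (σ * τ) = h σ + h τ) →
      (∀ σ ∈ II p S w L', h σ = 0) →
      (∀ σ ∈ (Pool.Agent.NH7.Sch.Dec Q : Subgroup (Gal K)).comap L'.fixingSubgroup.subtype,
        h σ = 0) → ∀ σ, h σ = 0 := by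
  intro h hc hm hI hD σ
  have hcomp := compact_L hL
  have hle : L'.fixingSubgroup ≤ L.fixingSubgroup := IntermediateField.fixingSubgroup_le hL'.1
  let e : L'.fixingSubgroup.subgroupOf L.fixingSubgroup → GalL L' :=
    fun τ => ⟨((τ : GalL L) : Gal K), Subgroup.mem_subgroupOf.1 τ.2⟩
  have he : Continuous e :=
    Continuous.subtype_mk (continuous_subtype_val.comp continuous_subtype_val) _
  exact E.ctl_inf (p := p) (I := II p S w L) basis II_conj (closed_dec Q)
    (covered hrc hw hL hQ) (core_le hL') (fun τ => h (e τ)) (hc.comp he)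
    (fun τ υ => hm (e τ) (e υ)) (fun τ hτ => hI (e τ) hτ) (fun τ hτ => hD (e τ) hτ)
    ⟨⟨σ, hle σ.2⟩, σ.2⟩

/-- **The main theorem.** -/
theorem main {S : Finset (HeightOneSpectrum (𝓞 K))} {w : HeightOneSpectrum (𝓞 K)}
    (hrc : Pool.Agent.H517.S.RC p {v | (p : 𝓞 K) ∈ v.asIdeal ∨ v ∈ S} w)
    (hw : (p : 𝓞 K) ∈ w.asIdeal)
    {L L' : IntermediateField K (Bar K)} (hL : Controlled p S w L) (hL' : InMaximal p S L L')
    {Q : Ideal (𝓞 (Bar K))} (hQ : Above Q w) {M : IntermediateField K (Bar K)}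
    (hM : SplitExtension p S L' M Q) : M = L' := by
  refine le_antisymm (fun x hx => ?_) hM.le
  obtain ⟨N, hNn, hNo, ⟨a, ha⟩, hNx⟩ := hM.proP x hx
  have happ : ∀ (σ τ : GalL L') (y : Bar K),
      ((σ * τ : GalL L') : Gal K) y = (σ : Gal K) ((τ : Gal K) y) := fun _ _ _ => rfl
  have hinv : ∀ (τ : GalL L') (y : Bar K), (τ : Gal K) (((τ⁻¹ : GalL L') : Gal K) y) = y := by
    intro τ y
    rw [← happ, mul_inv_cancel]
    rfl
  let C : Subgroup (GalL L') :=
    { carrier := {σ | ∀ τ : GalL L', (σ : Gal K) ((τ : Gal K) x) = (τ : Gal K) x}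
      one_mem' := fun τ => rfl
      mul_mem' := fun {a b} ha hb τ => by
        rw [happ, hb τ, ha τ]
      inv_mem' := fun {a} ha τ => by
        have h1 := congrArg (((a⁻¹ : GalL L') : Gal K)) (ha τ)
        rw [← happ, inv_mul_cancel] at h1
        exact h1.symm }
  have hCm : ∀ σ : GalL L', σ ∈ C ↔ ∀ τ : GalL L', (σ : Gal K) ((τ : Gal K) x) = (τ : Gal K) x :=
    fun σ => Iff.rfl
  have hCn : C.Normal := ⟨fun σ hσ g τ => by
    rw [happ, happ, ← happ g⁻¹ τ x, hσ (g⁻¹ * τ), happ, hinv]⟩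
  have hNC : N ≤ C := by
    intro n hn τ
    have h1 : n = τ * (τ⁻¹ * n * τ⁻¹⁻¹) * τ⁻¹ := by group
    have h2 := hNn.conj_mem n hn τ⁻¹
    have h3 : (n : Gal K) ((τ : Gal K) x) = ((n * τ : GalL L') : Gal K) x := (happ _ _ _).symm
    have h4 : n * τ = τ * (τ⁻¹ * n * τ⁻¹⁻¹) := by group
    rw [h3, h4, happ, hNx _ h2]
  have hCo : IsOpen (C : Set (GalL L')) := Subgroup.isOpen_mono hNC hNo
  have hCi : ∃ b : ℕ, C.index = p ^ b := by
    obtain ⟨b, -, hb⟩ := (Nat.dvd_prime_pow hp.out).1 (ha ▸ Subgroup.index_dvd_of_le hNC)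
    exact ⟨b, hb⟩
  have hfix : ∀ g : GalL L', (g : Gal K) x = x := by
    intro g
    obtain ⟨δ, hδ, hδg⟩ := Pool.Agent.H517.S.dense_of (p := p) (I := II p S w L')
      (ctl_infinite hrc hw hL hL' hQ) hCn hCo hCi (fun σ hσ τ => by
        obtain ⟨Q', hQ', hσQ⟩ := out_IS (σ : Gal K) hσ
        exact hM.unramified Q' hQ' σ hσQ _ (hM.galois τ x hx)) g
    have hδC : δ ∈ C := fun τ => hM.split δ hδ _ (hM.galois τ x hx)
    have hg : g ∈ C := by
      have h1 : g = δ * (δ⁻¹ * g) := by group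
      rw [h1]
      exact mul_mem hδC hδg
    have h2 := (hCm g).1 hg 1
    exact h2
  rw [← InfiniteGalois.fixedField_fixingSubgroup L', IntermediateField.mem_fixedField_iff]
  exact fun σ hσ => hfix ⟨σ, hσ⟩

/-- the fields `ℚ(√(1 - 4p))` -/
theorem quadratic (h2 : finrank ℚ K = 2) (h : ∃ α : K, α ^ 2 - α + p = 0) :
    IsEmpty (K →+* ℝ) ∧ ∀ w : HeightOneSpectrum (𝓞 K), (p : 𝓞 K) ∈ w.asIdeal →
      Generates p ∅ w := by
  obtain ⟨a, ha⟩ := h
  have hint : IsIntegral ℤ a := by
    refine ⟨Polynomial.X ^ 2 - Polynomial.X + Polynomial.C (p : ℤ), by monicity!, ?_⟩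
    simpa using ha
  obtain ⟨α, hα0⟩ : ∃ α : 𝓞 K, α = ⟨a, hint⟩ := ⟨_, rfl⟩
  have hα1 : algebraMap (𝓞 K) K α = a := by rw [hα0]; rfl
  have hα : α ^ 2 - α + p = 0 := by
    apply FaithfulSMul.algebraMap_injective (𝓞 K) K
    rw [map_add, map_sub, map_pow, map_natCast, map_zero, hα1, ha]
  obtain ⟨β, hβ0⟩ : ∃ β : 𝓞 K, β = 1 - α := ⟨_, rfl⟩
  have hβ : β ^ 2 - β + p = 0 := by rw [hβ0]; linear_combination hα
  obtain ⟨w₁, hw₁⟩ := B.exists_pl (p := p) h2 hα
  obtain ⟨w₂, hw₂⟩ := B.exists_pl (p := p) h2 hβ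
  have hsum : α + β = 1 := by rw [hβ0]; ring
  have hmul : α * β = p := by rw [hβ0]; linear_combination -hα
  have hcop : IsCoprime w₁.asIdeal w₂.asIdeal := by
    rw [hw₁, hw₂, Ideal.isCoprime_span_singleton_iff]
    exact ⟨1, 1, by rw [one_mul, one_mul, hsum]⟩
  have hab : w₁.asIdeal * w₂.asIdeal = Ideal.span {(p : 𝓞 K)} := by
    rw [hw₁, hw₂, Ideal.span_singleton_mul_span_singleton, hmul]
  have hcl := B.class_lt h2 hp.out hα
  refine ⟨B.no_real hp.out.one_le hα, fun w hw => ?_⟩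
  have hw' : w = w₁ ∨ w = w₂ := by
    have h3 : w₁.asIdeal * w₂.asIdeal ≤ w.asIdeal := by
      rw [hab, Ideal.span_singleton_le_iff_mem]
      exact hw
    rcases (w.isPrime.mul_le).1 h3 with h4 | h4
    · exact Or.inl (HeightOneSpectrum.ext (w₁.isMaximal.eq_of_le w.isPrime.ne_top h4)).symm
    · exact Or.inr (HeightOneSpectrum.ext (w₂.isMaximal.eq_of_le w.isPrime.ne_top h4)).symm
  rcases hw' with rfl | rfl
  · refine ⟨hw, by simp, B.class_cond hcl w, 1, w₂.asIdeal, by rw [pow_one, hab], hcop, ?_⟩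
    intro x hx
    rw [Finset.prod_empty, mul_one] at hx
    obtain ⟨α', y, k, h3, h4⟩ := B.unit_cond h2 hα hsum hw₁ hw₂ x hx
    exact ⟨α', y, k, h3, by rwa [Finset.prod_empty, mul_one]⟩
  · refine ⟨hw, by simp, B.class_cond hcl w, 1, w₁.asIdeal, by rw [pow_one, mul_comm, hab],
      hcop.symm, ?_⟩
    intro x hx
    rw [Finset.prod_empty, mul_one] at hx
    obtain ⟨α', y, k, h3, h4⟩ := B.unit_cond h2 hβ (by rw [add_comm, hsum]) hw₂ hw₁ x hx
    exact ⟨α', y, k, h3, by rwa [Finset.prod_empty, mul_one]⟩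

/-- the field `ℚ` -/
theorem rational {q : ℕ} [hq : Fact q.Prime] (hpq : p ≠ q)
    (hc : q % p = 1 → ∀ y : ZMod q, y ^ p ≠ p) {w v : HeightOneSpectrum (𝓞 ℚ)}
    (hw : (p : 𝓞 ℚ) ∈ w.asIdeal) (hv : (q : 𝓞 ℚ) ∈ v.asIdeal) : Generates p {v} w := by
  refine ⟨hw, ?_, fun C => ⟨1, 0, hp.out.one_lt.ne' ∘ Nat.dvd_one.1, by
    rw [Pool.Agent.H517.S.cls_rat C, one_pow, pow_zero]⟩, 1, ⊤, ?_, ?_, ?_⟩
  · intro u hu
    rw [Finset.mem_singleton] at hu
    subst hu
    have h1 := Pool.Agent.H517.S.mem_iff_rat hq.out hv (p : ℤ)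
    rw [Int.cast_natCast] at h1
    rw [h1]
    intro h2
    exact hpq ((Nat.prime_dvd_prime_iff_eq hq.out hp.out).1 (by exact_mod_cast h2)).symm
  · rw [pow_one, Ideal.mul_top, Pool.Agent.H517.S.eq_span_rat hp.out hw]
  · rw [← Ideal.one_eq_top]
    exact isCoprime_one_right
  · intro x hx
    rw [Finset.prod_singleton, ← Ideal.one_eq_top, one_mul] at hx
    obtain ⟨α, y, k, h1, h2⟩ := Pool.Agent.H517.S.units_rat hpq hc hw hv x hx
    exact ⟨α, y, k, h1, by rwa [Finset.prod_singleton, ← Ideal.one_eq_top, one_pow, one_mul]⟩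

/-! ### The density of the primes which can be added to `S`, and more families -/

theorem gen_iff (S : Finset (HeightOneSpectrum (𝓞 K))) (w : HeightOneSpectrum (𝓞 K)) :
    Generates p S w ↔ D.Gen p S w :=
  ⟨fun h => ⟨h.above, h.tame, h.classes, h.units⟩, fun h => ⟨h.above, h.tame, h.classes, h.units⟩⟩

theorem kummerDegree_eq : ((kummerDegree p K : ℕ) : ℝ) =
    (D.cyc p K : ℝ) * (p : ℝ) ^ (NumberField.Units.rank K + 1 + D.del p K) := by
  have h1 : NumberField.Units.rank K + 1 =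
      InfinitePlace.nrRealPlaces K + InfinitePlace.nrComplexPlaces K := by
    unfold NumberField.Units.rank
    rw [InfinitePlace.card_eq_nrRealPlaces_add_nrComplexPlaces]
    have h2 : 0 < Fintype.card (InfinitePlace K) := Fintype.card_pos
    rw [InfinitePlace.card_eq_nrRealPlaces_add_nrComplexPlaces] at h2
    omega
  rw [h1]
  unfold kummerDegree D.cyc D.del
  push_cast
  rfl

open Classical in
theorem density {S : Finset (HeightOneSpectrum (𝓞 K))} {w : HeightOneSpectrum (𝓞 K)}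
    (hG : Generates p S w) {e : ℕ} {𝔟 : Ideal (𝓞 K)}
    (hab : w.asIdeal ^ e * 𝔟 = Ideal.span {(p : 𝓞 K)}) (hcop : IsCoprime w.asIdeal 𝔟) :
    HasDensity (fun v => Generates p (insert v S) w)
      (1 - (unitsModPowers p (𝔟 ^ 3 * ∏ v ∈ S, v.asIdeal) : ℝ) / (kummerDegree p K : ℝ)) := by
  have h := D.rel_dens (D.dens_gen D.s_eq D.s_fr D.s_kum (D.s_cnt D.s_rk) K p S w
    ((gen_iff S w).1 hG) e 𝔟 hab hcop)
  rw [← kummerDegree_eq] at h
  unfold HasDensity
  simp only [gen_iff]
  exact h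

open Classical in
theorem units_only (S : Finset (HeightOneSpectrum (𝓞 K))) :
    unitsModPowers p ((⊤ : Ideal (𝓞 K)) ^ 3 * ∏ v ∈ S, v.asIdeal) =
      p ^ (S.filter fun v => p ∣ Ideal.absNorm v.asIdeal - 1).card := by
  unfold unitsModPowers
  rw [← Ideal.one_eq_top, one_pow, one_mul]
  exact D.pwi_primes p S

/-- only one place above `p` -/
theorem only {w : HeightOneSpectrum (𝓞 K)} (hw : (p : 𝓞 K) ∈ w.asIdeal)
    (h1 : ∃ e : ℕ, w.asIdeal ^ e = Ideal.span {(p : 𝓞 K)})
    (hcl : ClassCondition p w) : Generates p ∅ w := by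
  obtain ⟨e, he⟩ := h1
  refine ⟨hw, by simp, hcl, e, ⊤, by rw [Ideal.mul_top, he], ?_, ?_⟩
  · rw [← Ideal.one_eq_top]
    exact isCoprime_one_right
  · intro x _
    refine ⟨1, 0, 0, by simp, ?_⟩
    rw [Finset.prod_empty, mul_one, ← Ideal.one_eq_top, one_pow, Ideal.one_eq_top]
    trivial

/-- a second place above `p`, of degree one -/
theorem second (hp2 : p ≠ 2) {w w' : HeightOneSpectrum (𝓞 K)} {e : ℕ}
    (hab : w.asIdeal ^ e * w'.asIdeal = Ideal.span {(p : 𝓞 K)}) (hw : (p : 𝓞 K) ∈ w.asIdeal)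
    (hne : w ≠ w') (hN : Ideal.absNorm w'.asIdeal = p)
    (hcl : ClassCondition p w) {α : 𝓞 K} {k : ℕ}
    (hα : Ideal.span {α} = w.asIdeal ^ k) (h2 : α ^ (p - 1) - 1 ∉ w'.asIdeal ^ 2) :
    Generates p ∅ w := by
  refine ⟨hw, by simp, hcl, e, w'.asIdeal, hab, ?_, ?_⟩
  · rw [Ideal.isCoprime_iff_sup_eq]
    refine w'.isMaximal.1.2 _ (lt_of_le_of_ne le_sup_right fun h4 => hne ?_)
    have h5 : w.asIdeal ≤ w'.asIdeal := by rw [h4]; exact le_sup_left
    exact HeightOneSpectrum.ext (w.isMaximal.eq_of_le w'.isPrime.ne_top h5)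
  · intro x hx
    rw [Finset.prod_empty, mul_one] at hx ⊢
    exact D.s_one K p hp2 w w' e hab hne hN α k hα h2 x hx

/-- imaginary quadratic fields -/
theorem quad (hp2 : p ≠ 2) (h2 : finrank ℚ K = 2) (hre : IsEmpty (K →+* ℝ))
    (hcl : ¬ p ∣ classNumber K) {w w' : HeightOneSpectrum (𝓞 K)} (hne : w ≠ w')
    (hab : w.asIdeal * w'.asIdeal = Ideal.span {(p : 𝓞 K)}) {α : 𝓞 K} {k : ℕ}
    (hα : Ideal.span {α} = w.asIdeal ^ k) (hα2 : α ^ (p - 1) - 1 ∉ w'.asIdeal ^ 2) :
    (Generates p ∅ w ∧ Independent p ∅ w) ∧ Generates p ∅ w' ∧ Independent p ∅ w' := by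
  have hpw : (p : 𝓞 K) ∈ w.asIdeal := by
    have h3 : Ideal.span {(p : 𝓞 K)} ≤ w.asIdeal := by
      rw [← hab]
      exact Ideal.mul_le_left
    rwa [Ideal.span_singleton_le_iff_mem] at h3
  have hpw' : (p : 𝓞 K) ∈ w'.asIdeal := by
    have h3 : Ideal.span {(p : 𝓞 K)} ≤ w'.asIdeal := by
      rw [← hab]
      exact Ideal.mul_le_right
    rwa [Ideal.span_singleton_le_iff_mem] at h3
  obtain ⟨h3, h4, β, hβ, hβ2⟩ := E.both_quad hp2 h2 hre hcl hne hab
    (T := {v | (p : 𝓞 K) ∈ v.asIdeal ∨ v ∈ (∅ : Finset (HeightOneSpectrum (𝓞 K)))})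
    (fun v hv => hv.elim id fun h => absurd h (Finset.notMem_empty v)) hα hα2
  refine ⟨⟨⟨hpw, by simp, E.class_pow hcl w (cl w), ?_⟩, (ind_iff hpw).2 h3⟩,
    ⟨hpw', by simp, E.class_pow hcl w (cl w'), ?_⟩, (ind_iff hpw').2 h4⟩
  · simpa only [Finset.prod_empty, mul_one] using E.units_quad hp2 h2 hne hab hα hα2
  · simpa only [Finset.prod_empty, mul_one] using
      E.units_quad hp2 h2 hne.symm (by rw [mul_comm]; exact hab) hβ hβ2

end proof

/-- **The split-at-`p` form of Greenberg's conjecture in the towers.** (1) For every prime number `p`, number field `K` (totally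
complex if `p = 2`), finite set `S` of primes and place `w` with the condition `Generates`, all fields `L` in the `p`-towers over
`K` unramified outside `p` and `S` (with the condition `Independent` also those in the `p`-towers over `K(ζ_p)`,
`[K(ζ_p) : K] = 2`), all fields `L'` between `L` and the maximal pro-`p` extension of `L` unramified outside `p` and `S`, and all
places `Q` above `w`: `L'` has no nontrivial Galois pro-`p` extension unramified outside `p` and `S` in which `Q` splits completely.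
(2) If the condition holds for `S`, then the set of the primes `v` such that it holds for `S ∪ {v}` has a natural density, which
is `1 - #((O / 𝔟 ^ 3 𝔫)ˣ / p-th powers) / ([K(ζ_p) : K] p ^ (r₁ + r₂ + δ))`; if `w` is the only place above
`p` (`𝔟 = O`) the numerator is `p ^ j`, `j` the number of the `v ∈ S` with norm `1` modulo `p`. (3) The
condition holds for `S = ∅` if the class group modulo the class of `w` has order prime to `p` and either `w` is the only place above
`p`, or there is only one other place `w'` above `p`, it is unramified of degree `1`, `p` is odd and there is an `α` such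
that `(α)` is a power of `w` and `α ^ (p - 1)` is not `1` modulo `w' ^ 2`. (4) Both conditions hold for `S = ∅` and both places
above an odd `p` of an imaginary quadratic field with the condition `Gold`. (5) The condition holds for `S = ∅` and
both places above `p` of `K = ℚ(√(1 - 4 p))`, generated by a root of `X ^ 2 - X + p`, for all prime numbers
`p`. (6) It holds for `K = ℚ` and `S = {q}` for all prime numbers `p`, `q`, `p ≠ q`, unless `q` is `1`
modulo `p` and `p` is a `p`-th power modulo `q`. -/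
theorem result :
    (∀ (p : ℕ) [Fact p.Prime] (K : Type) [Field K] [NumberField K]
      (S : Finset (HeightOneSpectrum (𝓞 K))) (w : HeightOneSpectrum (𝓞 K)), Generates p S w →
        DensityOfExtensions p S w ∧ ((p = 2 → IsEmpty (K →+* ℝ)) → NoSplitExtensions p S w)) ∧
    (∀ (p : ℕ) [Fact p.Prime] (K : Type) [Field K] [NumberField K] (w : HeightOneSpectrum (𝓞 K)),
      (p : 𝓞 K) ∈ w.asIdeal → ClassCondition p w → OnlyPlace p w ∨ SecondPlace p w →
        Generates p ∅ w) ∧
    (∀ (p : ℕ) [Fact p.Prime] (K : Type) [Field K] [NumberField K], p ≠ 2 →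
      finrank ℚ K = 2 → IsEmpty (K →+* ℝ) → ∀ w w' : HeightOneSpectrum (𝓞 K), Gold p w w' →
        Suitable p ∅ w ∧ Suitable p ∅ w') ∧
    (∀ (p : ℕ) [Fact p.Prime] (K : Type) [Field K] [NumberField K], finrank ℚ K = 2 →
      (∃ α : K, α ^ 2 - α + p = 0) → IsEmpty (K →+* ℝ) ∧
        ∀ w : HeightOneSpectrum (𝓞 K), (p : 𝓞 K) ∈ w.asIdeal → Generates p ∅ w) ∧
    ∀ (p q : ℕ) [Fact p.Prime] [Fact q.Prime], p ≠ q →
      (q % p = 1 → ∀ y : ZMod q, y ^ p ≠ p) →
      ∀ w v : HeightOneSpectrum (𝓞 ℚ), (p : 𝓞 ℚ) ∈ w.asIdeal → (q : 𝓞 ℚ) ∈ v.asIdeal →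
        Generates p {v} w := by
  refine ⟨?_, ?_, ?_, ?_, ?_⟩
  · intro p _ K _ _ S w hw
    refine ⟨?_, ?_⟩
    · intro e 𝔟 hab hcop
      refine ⟨density hw hab hcop, ?_⟩
      rintro rfl
      exact units_only S
    · intro h2 L hL L' hL' Q hQ M hM
      exact main (rc h2 hw) hw.above hL hL' hQ hM
  · intro p _ K _ _ w hw hcl h
    rcases h with h1 | ⟨hp2, w', e, hne, hab, hN, α, k, hα, h2⟩
    · exact only hw h1 hcl
    · exact second hp2 hab hw hne hN hcl hα h2
  · intro p _ K _ _ hp2 h2 hre w w' ⟨hne, hab, hcl, α, k, hα, hα2⟩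
    exact quad hp2 h2 hre hcl hne hab hα hα2
  · intro p _ K _ _ h2 h
    exact quadratic h2 h
  · intro p q _ _ hpq hc w v hw hv
    exact rational hpq hc hw hv

end Pool.Agent.Results.MP_f8d36e_nt.SplitFormInTowers
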